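import Pool.Agent.Q62.DP.Defs

set_option autoImplicit false

namespace Q62.DP

open MeasureTheory Set Filter Topology

/-- A `C²` local inverse of a `C²` function of one variable near a point where the derivative does
not vanish. -/
theorem local_inv {a : ℝ → ℝ} (ha : ContDiff ℝ 2 a) {t0 : ℝ} (h0 : deriv a t0 ≠ 0) :
    ∃ (A : Set ℝ) (σ : ℝ → ℝ) (c : ℝ), IsOpen A ∧ a t0 ∈ A ∧ 0 < c ∧
      (∀ x ∈ A, ContDiffAt ℝ 2 σ x) ∧ (∀ x ∈ A, a (σ x) = x ∧ c ≤ |deriv a (σ x)|) ∧
      ∃ r > 0, ∀ t, |t - t0| < r → a t ∈ A ∧ σ (a t) = t := by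
  have hdiff : Differentiable ℝ a := ha.differentiable (by norm_num)
  have hd : HasDerivAt a (deriv a t0) t0 := (hdiff t0).hasDerivAt
  set f' : ℝ ≃L[ℝ] ℝ := ContinuousLinearEquiv.unitsEquivAut ℝ (Units.mk0 (deriv a t0) h0) with hf'
  have hfd : HasFDerivAt a (f' : ℝ →L[ℝ] ℝ) t0 := by
    have : (f' : ℝ →L[ℝ] ℝ) = ContinuousLinearMap.toSpanSingleton ℝ (deriv a t0) := by
      ext
      simp [hf']
    rw [this]
    exact hd.hasFDerivAt
  have hca : ContDiffAt ℝ 2 a t0 := ha.contDiffAt
  set e := hca.toOpenPartialHomeomorph a hfd (by norm_num) with he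
  have he_coe : (e : ℝ → ℝ) = a := rfl
  have hsrc : t0 ∈ e.source := hca.mem_toOpenPartialHomeomorph_source hfd (by norm_num)
  have htgt : a t0 ∈ e.target := by
    have := e.map_source hsrc
    rwa [he_coe] at this
  set σ : ℝ → ℝ := fun x => e.symm x with hσ
  have hσc : ContDiffAt ℝ 2 σ (a t0) := hca.to_localInverse hfd (by norm_num)
  have hσ0 : σ (a t0) = t0 := by
    have := e.left_inv hsrc
    rwa [he_coe] at this
  have hcd : Continuous (deriv a) := ha.continuous_deriv (by norm_num)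
  have ev1 : ∀ᶠ x in 𝓝 (a t0), ContDiffAt ℝ 2 σ x := hσc.eventually (by decide)
  have ev2 : ∀ᶠ x in 𝓝 (a t0), x ∈ e.target := e.open_target.mem_nhds htgt
  have ev3 : ∀ᶠ x in 𝓝 (a t0), |deriv a t0| / 2 < |deriv a (σ x)| := by
    have hc : ContinuousAt (fun x => |deriv a (σ x)|) (a t0) :=
      (hcd.abs.continuousAt).comp hσc.continuousAt
    have : |deriv a t0| / 2 < |deriv a (σ (a t0))| := by
      rw [hσ0]
      have := abs_pos.2 h0
      linarith
    exact hc.eventually (lt_mem_nhds this)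
  obtain ⟨A, hA, hAo, hA0⟩ := eventually_nhds_iff.1 (ev1.and (ev2.and ev3))
  refine ⟨A, σ, |deriv a t0| / 2, hAo, hA0, by have := abs_pos.2 h0; linarith,
    fun x hx => (hA x hx).1, fun x hx => ⟨?_, (hA x hx).2.2.le⟩, ?_⟩
  · have := e.right_inv (hA x hx).2.1
    rwa [he_coe] at this
  · have h1 : ∀ᶠ t in 𝓝 t0, a t ∈ A := ha.continuous.continuousAt.eventually (hAo.mem_nhds hA0)
    have h2 : ∀ᶠ t in 𝓝 t0, t ∈ e.source := e.open_source.mem_nhds hsrc
    obtain ⟨r, hr, hr'⟩ := Metric.eventually_nhds_iff.1 (h1.and h2)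
    refine ⟨r, hr, fun t ht => ?_⟩
    have := hr' (y := t) (by rwa [Real.dist_eq])
    refine ⟨this.1, ?_⟩
    have h3 := e.left_inv this.2
    rwa [he_coe] at h3

/-- Near a point of an arc the parameter is small-variation stable: points of the arc near
`(a t0, b t0)` have parameter near `t0`. -/
theorem param_close {a b : ℝ → ℝ} (hab : IsArc a b) {t0 : ℝ} (ht0 : t0 ∈ Icc (0 : ℝ) 1) {r : ℝ}
    (hr : 0 < r) : ∃ δ > 0, ∀ t ∈ Icc (0 : ℝ) 1, dist (a t, b t) (a t0, b t0) < δ →
      |t - t0| < r := by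
  set K : Set ℝ := Icc (0 : ℝ) 1 ∩ {t | r ≤ |t - t0|} with hK
  have hKc : IsCompact K := isCompact_Icc.inter_right
    (isClosed_le continuous_const (by fun_prop))
  have hγ : Continuous (fun t : ℝ => ((a t, b t) : ℝ × ℝ)) :=
    hab.smooth_fst.continuous.prodMk hab.smooth_snd.continuous
  rcases K.eq_empty_or_nonempty with hKe | hKn
  · refine ⟨1, one_pos, fun t ht _ => ?_⟩
    by_contra hcon
    have : t ∈ K := ⟨ht, not_lt.1 hcon⟩
    rw [hKe] at this
    exact this
  · obtain ⟨s, hs, hmin⟩ := hKc.exists_isMinOn hKn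
      (f := fun t => dist (a t, b t) (a t0, b t0)) (by fun_prop)
    have hpos : 0 < dist (a s, b s) (a t0, b t0) := by
      rw [dist_pos]
      intro h
      have h1 : a s = a t0 := congrArg Prod.fst h
      have h2 : b s = b t0 := congrArg Prod.snd h
      have h3 := hab.inj s hs.1 t0 ht0 h1 h2
      have h4 : r ≤ |s - t0| := hs.2
      rw [h3] at h4
      simp at h4
      linarith
    refine ⟨_, hpos, fun t ht htd => ?_⟩
    by_contra hcon
    have : t ∈ K := ⟨ht, not_lt.1 hcon⟩
    have h5 := hmin this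
    simp only [mem_ofPred_eq] at h5
    linarith

/-- What a chart around a point of the arc provides. -/
structure Chart (a b : ℝ → ℝ) (W : Set (ℝ × ℝ)) (S : ℝ × ℝ → ℝ) (C : ℝ) : Prop where
  isOpen : IsOpen W
  bdd : Bornology.IsBounded W
  smooth : ∀ z ∈ W, ContDiffAt ℝ 2 S z
  param : ∀ t ∈ Icc (0 : ℝ) 1, (a t, b t) ∈ W → S (a t, b t) = t
  nonneg : 0 ≤ C
  energy : ∀ f : ℝ → ℝ, Continuous f →
    ∫⁻ z in W, ENNReal.ofReal (f (S z) ^ 2 * (px S z ^ 2 + py S z ^ 2)) ≤
      ENNReal.ofReal C * ∫⁻ t, ENNReal.ofReal (f t ^ 2)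

theorem px_comp_fst {σ : ℝ → ℝ} {z : ℝ × ℝ} (h : DifferentiableAt ℝ σ z.1) :
    px (fun w => σ w.1) z = deriv σ z.1 ∧ py (fun w => σ w.1) z = 0 := by
  have h1 : HasFDerivAt (fun w : ℝ × ℝ => σ w.1)
      ((ContinuousLinearMap.toSpanSingleton ℝ (deriv σ z.1)).comp
        (ContinuousLinearMap.fst ℝ ℝ ℝ)) z :=
    HasFDerivAt.comp z h.hasDerivAt.hasFDerivAt hasFDerivAt_fst
  unfold px py
  rw [h1.fderiv]
  simp

theorem exists_chart_fst {a b : ℝ → ℝ} (hab : IsArc a b) {t0 : ℝ} (ht0 : t0 ∈ Icc (0 : ℝ) 1)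
    (h0 : deriv a t0 ≠ 0) : ∃ W S C, Chart a b W S C ∧ (a t0, b t0) ∈ W := by
  obtain ⟨A, σ, c, hAo, hA0, hc, hσ, hA, r, hr, hrt⟩ := local_inv hab.smooth_fst h0
  obtain ⟨δ, hδ, hδt⟩ := param_close hab ht0 hr
  set W : Set (ℝ × ℝ) := (A ×ˢ univ) ∩ Metric.ball (a t0, b t0) δ with hW
  have hWo : IsOpen W := (hAo.prod isOpen_univ).inter Metric.isOpen_ball
  refine ⟨W, fun z => σ z.1, 2 * δ / c, ⟨hWo, Metric.isBounded_ball.subset inter_subset_right,
    ?_, ?_, by positivity, ?_⟩, ?_⟩
  · rintro z ⟨⟨hz, -⟩, -⟩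
    exact (hσ z.1 hz).comp z contDiffAt_fst
  · rintro t ht ⟨-, htW⟩
    exact (hrt t (hδt t ht htW)).2
  · intro f hf
    set A' : Set ℝ := A ∩ Ioo (a t0 - δ) (a t0 + δ) with hA'
    have hA'o : IsOpen A' := hAo.inter isOpen_Ioo
    have hWsub : W ⊆ A' ×ˢ Ioo (b t0 - δ) (b t0 + δ) := by
      rintro ⟨x, y⟩ ⟨⟨hx, -⟩, hb⟩
      rw [Metric.mem_ball, Prod.dist_eq, max_lt_iff, Real.dist_eq, Real.dist_eq, abs_lt,
        abs_lt] at hb
      simp only at hb hx
      exact ⟨⟨hx, by constructor <;> linarith [hb.1.1, hb.1.2]⟩,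
        by constructor <;> linarith [hb.2.1, hb.2.2]⟩
    set G : ℝ → ENNReal := fun x => ENNReal.ofReal (f (σ x) ^ 2 * (deriv σ x) ^ 2) with hG
    have e1 : ∫⁻ z in W, ENNReal.ofReal (f (σ z.1) ^ 2 *
        (px (fun w => σ w.1) z ^ 2 + py (fun w => σ w.1) z ^ 2)) ≤
        ∫⁻ z in A' ×ˢ Ioo (b t0 - δ) (b t0 + δ), G z.1 := by
      calc _ = ∫⁻ z in W, G z.1 := by
            refine setLIntegral_congr_fun hWo.measurableSet ?_
            rintro z ⟨⟨hz, -⟩, -⟩
            have := px_comp_fst (σ := σ) (z := z) ((hσ z.1 hz).differentiableAt (by norm_num))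
            simp only [hG, this.1, this.2]
            congr 2
            ring
        _ ≤ _ := lintegral_mono_set hWsub
    have hderiv : ∀ x ∈ A', HasDerivAt σ (deriv σ x) x := fun x hx =>
      ((hσ x hx.1).differentiableAt (by norm_num)).hasDerivAt
    have hmul : ∀ x ∈ A', deriv a (σ x) * deriv σ x = 1 := by
      intro x hx
      have h1 : HasDerivAt (fun y => a (σ y)) (deriv a (σ x) * deriv σ x) x :=
        ((hab.smooth_fst.differentiable (by norm_num)) (σ x)).hasDerivAt.comp x (hderiv x hx)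
      have h2 : (fun y => a (σ y)) =ᶠ[𝓝 x] id := by
        filter_upwards [hAo.mem_nhds hx.1] with y hy
        exact (hA y hy).1
      exact h1.unique ((hasDerivAt_id x).congr_of_eventuallyEq h2)
    have hcontσ : ContinuousOn σ A' := fun x hx => (hσ x hx.1).continuousAt.continuousWithinAt
    have hcd : Continuous (deriv a) := hab.smooth_fst.continuous_deriv (by norm_num)
    have hds : ∀ x ∈ A', deriv σ x = (deriv a (σ x))⁻¹ := fun x hx =>
      eq_inv_of_mul_eq_one_right (hmul x hx)
    have hinj : InjOn σ A' := by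
      intro x hx y hy hxy
      have h1 := (hA x hx.1).1
      have h2 := (hA y hy.1).1
      rw [← h1, ← h2, hxy]
    have hIm : MeasurableSet (σ '' A') :=
      hA'o.measurableSet.image_of_continuousOn_injOn hcontσ hinj
    have himg : a '' (σ '' A') = A' := by
      rw [image_image]
      ext x
      constructor
      · rintro ⟨y, hy, rfl⟩
        have h1 := (hA y hy.1).1
        change a (σ y) ∈ A'
        rw [h1]
        exact hy
      · intro hx
        exact ⟨x, hx, (hA x hx.1).1⟩
    have hinja : InjOn a (σ '' A') := by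
      rintro _ ⟨x, hx, rfl⟩ _ ⟨y, hy, rfl⟩ hxy
      rw [(hA x hx.1).1, (hA y hy.1).1] at hxy
      rw [hxy]
    have e2 : ∫⁻ x in A', G x ≤ ENNReal.ofReal (1 / c) * ∫⁻ t, ENNReal.ofReal (f t ^ 2) := by
      conv_lhs => rw [← himg]
      rw [lintegral_image_eq_lintegral_abs_deriv_mul hIm
        (fun x _ => ((hab.smooth_fst.differentiable (by norm_num)) x).hasDerivAt.hasDerivWithinAt)
        hinja]
      calc ∫⁻ x in σ '' A', ENNReal.ofReal |deriv a x| * G (a x) ≤
            ∫⁻ x in σ '' A', ENNReal.ofReal (1 / c) * ENNReal.ofReal (f x ^ 2) := by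
            refine setLIntegral_mono (by fun_prop) ?_
            rintro _ ⟨x, hx, rfl⟩
            have h1 := (hA x hx.1).1
            have h2 := (hA x hx.1).2
            have h3 : 0 < |deriv a (σ x)| := lt_of_lt_of_le hc h2
            simp only [hG, h1]
            rw [← ENNReal.ofReal_mul (abs_nonneg _), ← ENNReal.ofReal_mul (by positivity)]
            refine ENNReal.ofReal_le_ofReal ?_
            rw [hds x hx, inv_pow, ← sq_abs (deriv a (σ x))]
            have h4 : |deriv a (σ x)| * (f (σ x) ^ 2 * (|deriv a (σ x)| ^ 2)⁻¹) =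
                |deriv a (σ x)|⁻¹ * f (σ x) ^ 2 := by
              field_simp
            rw [h4]
            refine mul_le_mul_of_nonneg_right ?_ (sq_nonneg _)
            rw [one_div]
            exact inv_anti₀ hc h2
        _ = ENNReal.ofReal (1 / c) * ∫⁻ x in σ '' A', ENNReal.ofReal (f x ^ 2) :=
            lintegral_const_mul _ (by fun_prop)
        _ ≤ _ := by
            gcongr
            exact Measure.restrict_le_self
    have hGm : AEMeasurable G (volume.restrict A') := by
      have h1 : ContinuousOn (fun x => ENNReal.ofReal (f (σ x) ^ 2 * (deriv σ x) ^ 2)) A' := by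
        refine ENNReal.continuous_ofReal.comp_continuousOn ?_
        refine ((hf.comp_continuousOn hcontσ).pow 2).mul ?_
        refine ContinuousOn.pow ?_ 2
        have : ContinuousOn (fun x => (deriv a (σ x))⁻¹) A' := by
          refine (hcd.comp_continuousOn hcontσ).inv₀ ?_
          intro x hx h
          have := hmul x hx
          simp only [Function.comp_apply] at h
          rw [h, zero_mul] at this
          exact zero_ne_one this
        exact this.congr hds
      exact h1.aemeasurable hA'o.measurableSet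
    calc _ ≤ _ := e1
      _ = ∫⁻ z, G z.1 ∂((volume.restrict A').prod
            (volume.restrict (Ioo (b t0 - δ) (b t0 + δ)))) := by
          rw [Measure.prod_restrict, ← Measure.volume_eq_prod]
      _ = (∫⁻ x in A', G x) * volume (Ioo (b t0 - δ) (b t0 + δ)) := by
          have hGm' : AEMeasurable (fun z : ℝ × ℝ => G z.1) ((volume.restrict A').prod
            (volume.restrict (Ioo (b t0 - δ) (b t0 + δ)))) := hGm.comp_fst
          rw [lintegral_prod _ hGm']
          simp only [lintegral_const, Measure.restrict_apply MeasurableSet.univ, univ_inter]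
          rw [lintegral_mul_const'' _ hGm]
      _ ≤ (ENNReal.ofReal (1 / c) * ∫⁻ t, ENNReal.ofReal (f t ^ 2)) *
            ENNReal.ofReal (2 * δ) := by
          gcongr
          rw [Real.volume_Ioo]
          exact ENNReal.ofReal_le_ofReal (by linarith)
      _ = _ := by
          rw [mul_right_comm, ← ENNReal.ofReal_mul (by positivity)]
          congr 2
          ring
  · exact ⟨⟨hA0, mem_univ _⟩, Metric.mem_ball_self hδ⟩

end Q62.DP
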