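import Mathlib

/-!
The quadratic form of the delta-prime interaction supported on an arc of the plane.
The plane is `ℝ × ℝ` with its usual coordinates and Lebesgue measure.
-/

set_option autoImplicit false

namespace Q62.DP

open MeasureTheory Set

/-- The partial derivative in the first coordinate. -/
noncomputable def px (φ : ℝ × ℝ → ℝ) (z : ℝ × ℝ) : ℝ := fderiv ℝ φ z (1, 0)

/-- The partial derivative in the second coordinate. -/
noncomputable def py (φ : ℝ × ℝ → ℝ) (z : ℝ × ℝ) : ℝ := fderiv ℝ φ z (0, 1)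

/-- `t ↦ (a t, b t)`, `0 ≤ t ≤ 1`, is an injective regular parametrisation of class `C²`. -/
structure IsArc (a b : ℝ → ℝ) : Prop where
  smooth_fst : ContDiff ℝ 2 a
  smooth_snd : ContDiff ℝ 2 b
  inj : ∀ s ∈ Icc (0 : ℝ) 1, ∀ t ∈ Icc (0 : ℝ) 1, a s = a t → b s = b t → s = t
  reg : ∀ t ∈ Icc (0 : ℝ) 1, deriv a t ≠ 0 ∨ deriv b t ≠ 0

/-- The arc itself, a subset of the plane. -/
def arc (a b : ℝ → ℝ) : Set (ℝ × ℝ) := (fun t => (a t, b t)) '' Icc (0 : ℝ) 1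

/-- `u` belongs to `H¹(ℝ² ∖ K)` and `(g, h)` is its weak gradient on `ℝ² ∖ K`. -/
structure InH1 (K : Set (ℝ × ℝ)) (u g h : ℝ × ℝ → ℂ) : Prop where
  mem : MemLp u 2 volume
  mem_fst : MemLp g 2 volume
  mem_snd : MemLp h 2 volume
  weak_fst : ∀ φ : ℝ × ℝ → ℝ, ContDiff ℝ 1 φ → HasCompactSupport φ →
    Disjoint (tsupport φ) K → ∫ z, (u z * px φ z + g z * φ z) = 0
  weak_snd : ∀ φ : ℝ × ℝ → ℝ, ContDiff ℝ 1 φ → HasCompactSupport φ →
    Disjoint (tsupport φ) K → ∫ z, (u z * py φ z + h z * φ z) = 0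

/-- `J` is the jump (left trace minus right trace) of `u` across the arc: `J` is square integrable
and Green's formula holds for every test function on the whole plane. -/
structure IsJump (a b : ℝ → ℝ) (u g h : ℝ × ℝ → ℂ) (J : ℝ → ℂ) : Prop where
  mem : MemLp J 2 (volume.restrict (Icc (0 : ℝ) 1))
  green_fst : ∀ φ : ℝ × ℝ → ℝ, ContDiff ℝ 1 φ → HasCompactSupport φ →
    ∫ z, (u z * px φ z + g z * φ z) =
      ∫ t in Icc (0 : ℝ) 1, J t * (deriv b t * φ (a t, b t) : ℝ)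
  green_snd : ∀ φ : ℝ × ℝ → ℝ, ContDiff ℝ 1 φ → HasCompactSupport φ →
    ∫ z, (u z * py φ z + h z * φ z) =
      - ∫ t in Icc (0 : ℝ) 1, J t * (deriv a t * φ (a t, b t) : ℝ)

/-- The form `∫ |∇u|² dx - ω ∫_Λ |[u]|² ds`. -/
noncomputable def form (a b : ℝ → ℝ) (ω : ℝ) (g h : ℝ × ℝ → ℂ) (J : ℝ → ℂ) : ℝ :=
  (∫ z, (‖g z‖ ^ 2 + ‖h z‖ ^ 2)) -
    ω * ∫ t in Icc (0 : ℝ) 1, ‖J t‖ ^ 2 * Real.sqrt (deriv a t ^ 2 + deriv b t ^ 2)

end Q62.DP
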