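import Pool.Agent.Q62.DP.Ext3

set_option autoImplicit false

namespace Q62.DP

open MeasureTheory Set Filter Topology
open scoped ContDiff InnerProductSpace

/-- A square integrable real function on the unit interval which pairs with every smooth function
supported inside by at most `M` times the norm has norm at most `M`. -/
theorem norm_le_of_pair {J : ℝ → ℝ} (hJ : MemLp J 2 (volume.restrict (Icc (0 : ℝ) 1))) {M : ℝ}
    (hM : 0 ≤ M)
    (h : ∀ f : ℝ → ℝ, ContDiff ℝ ∞ f → HasCompactSupport f → tsupport f ⊆ Ioo (0 : ℝ) 1 →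
      |∫ t in Icc (0 : ℝ) 1, J t * f t| ≤ M * Real.sqrt (∫ t in Icc (0 : ℝ) 1, f t ^ 2)) :
    ∫ t in Icc (0 : ℝ) 1, J t ^ 2 ≤ M ^ 2 := by
  set μ := volume.restrict (Icc (0 : ℝ) 1) with hμ
  have hmem : ∀ f : ℝ → ℝ, ContDiff ℝ ∞ f → HasCompactSupport f → MemLp f 2 μ := fun f hf hc =>
    (hf.continuous.memLp_of_hasCompactSupport hc).restrict _
  set K : Submodule ℝ (Lp ℝ 2 μ) :=
    { carrier := {F | ∃ f : ℝ → ℝ, ContDiff ℝ ∞ f ∧ HasCompactSupport f ∧
        tsupport f ⊆ Ioo (0 : ℝ) 1 ∧ (F : ℝ → ℝ) =ᵐ[μ] f}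
      add_mem' := by
        rintro F G ⟨f, hf, hfc, hfs, hF⟩ ⟨g, hg, hgc, hgs, hG⟩
        refine ⟨f + g, hf.add hg, hfc.add hgc, ?_, ?_⟩
        · exact (tsupport_add f g).trans (union_subset hfs hgs)
        · exact (Lp.coeFn_add F G).trans (hF.add hG)
      zero_mem' := ⟨0, contDiff_const, HasCompactSupport.zero, by simp [tsupport],
        Lp.coeFn_zero _ _ _⟩
      smul_mem' := by
        rintro c F ⟨f, hf, hfc, hfs, hF⟩
        refine ⟨c • f, contDiff_const.smul hf, ?_, ?_, ?_⟩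
        · exact hfc.smul_left
        · refine (closure_mono ?_).trans hfs
          intro x hx
          rw [Function.mem_support] at hx ⊢
          intro h0
          exact hx (by simp [h0])
        · filter_upwards [Lp.coeFn_smul c F, hF] with x h1 h2
          rw [h1, Pi.smul_apply, Pi.smul_apply, h2] } with hK
  have hinner : ∀ F G : Lp ℝ 2 μ, ⟪F, G⟫_ℝ = ∫ t in Icc (0 : ℝ) 1, F t * G t := by
    intro F G
    rw [L2.inner_def]
    refine integral_congr_ae (Eventually.of_forall fun t => ?_)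
    simp [mul_comm]
  have hdense : K.topologicalClosure = ⊤ := by
    rw [Submodule.topologicalClosure_eq_top_iff, Submodule.eq_bot_iff]
    intro G hG
    rw [Submodule.mem_orthogonal] at hG
    have hGint : Integrable (G : ℝ → ℝ) μ := (Lp.memLp G).integrable (by norm_num)
    have h1 : ∀ᵐ x ∂μ, x ∈ Ioo (0 : ℝ) 1 → (G : ℝ → ℝ) x = 0 := by
      refine isOpen_Ioo.ae_eq_zero_of_integral_contDiff_smul_eq_zero
        (hGint.integrableOn.locallyIntegrableOn) fun g hg hgc hgs => ?_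
      have h2 := hG ((hmem g hg hgc).toLp g) ⟨g, hg, hgc, hgs, (hmem g hg hgc).coeFn_toLp⟩
      rw [hinner] at h2
      rw [← h2]
      refine integral_congr_ae ?_
      filter_upwards [(hmem g hg hgc).coeFn_toLp] with x hx
      rw [hx, smul_eq_mul]
    have h3 : ∀ᵐ x ∂μ, x ∈ Ioo (0 : ℝ) 1 := by
      have e : μ = volume.restrict (Ioo (0 : ℝ) 1) := restrict_Ioo_eq_restrict_Icc.symm
      rw [e]
      exact ae_restrict_mem measurableSet_Ioo
    refine Lp.ext ?_
    filter_upwards [h1, h3, Lp.coeFn_zero ℝ 2 μ] with x hx1 hx3 hx0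
    rw [hx1 hx3, hx0]
    rfl
  set JL := hJ.toLp J with hJL
  have hJc := hJ.coeFn_toLp
  have hbound : ∀ F : Lp ℝ 2 μ, |⟪JL, F⟫_ℝ| ≤ M * ‖F‖ := by
    have hcl : IsClosed {F : Lp ℝ 2 μ | |⟪JL, F⟫_ℝ| ≤ M * ‖F‖} :=
      isClosed_le (by fun_prop) (by fun_prop)
    have hsub : (K : Set (Lp ℝ 2 μ)) ⊆ {F : Lp ℝ 2 μ | |⟪JL, F⟫_ℝ| ≤ M * ‖F‖} := by
      rintro F ⟨f, hf, hfc, hfs, hF⟩
      have h2 := h f hf hfc hfs
      have h3 : ⟪JL, F⟫_ℝ = ∫ t in Icc (0 : ℝ) 1, J t * f t := by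
        rw [hinner]
        refine integral_congr_ae ?_
        filter_upwards [hF, hJc] with x h4 h5
        rw [h4, h5]
      have h4 : ‖F‖ = Real.sqrt (∫ t in Icc (0 : ℝ) 1, f t ^ 2) := by
        rw [← Real.sqrt_sq (norm_nonneg F), ← real_inner_self_eq_norm_sq, hinner]
        congr 1
        refine integral_congr_ae ?_
        filter_upwards [hF] with x h4
        rw [h4, sq]
      change |⟪JL, F⟫_ℝ| ≤ M * ‖F‖
      rw [h3, h4]
      exact h2
    intro F
    have hF : F ∈ K.topologicalClosure := by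
      rw [hdense]
      trivial
    exact closure_minimal hsub hcl hF
  have h5 := hbound JL
  have h6 : ⟪JL, JL⟫_ℝ = ∫ t in Icc (0 : ℝ) 1, J t ^ 2 := by
    rw [hinner]
    refine integral_congr_ae ?_
    filter_upwards [hJc] with x h4
    rw [h4, sq]
  rw [real_inner_self_eq_norm_sq] at h5 h6
  rw [← h6]
  rw [abs_of_nonneg (sq_nonneg _)] at h5
  have h7 : ‖JL‖ ≤ M := by
    rcases (norm_nonneg JL).eq_or_lt with h8 | h8
    · rw [← h8]
      exact hM
    · nlinarith
  exact pow_le_pow_left₀ (norm_nonneg _) h7 2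

end Q62.DP
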