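import Pool.Agent.Q62.DP.Chart

set_option autoImplicit false

namespace Q62.DP

open MeasureTheory Set Filter Topology

theorem IsArc.swap {a b : ℝ → ℝ} (h : IsArc a b) : IsArc b a :=
  ⟨h.smooth_snd, h.smooth_fst, fun s hs t ht h1 h2 => h.inj s hs t ht h2 h1,
    fun t ht => (h.reg t ht).symm⟩

theorem px_comp_swap (S : ℝ × ℝ → ℝ) (z : ℝ × ℝ) :
    px (fun w => S w.swap) z = py S z.swap ∧ py (fun w => S w.swap) z = px S z.swap := by
  have h := (ContinuousLinearEquiv.prodComm ℝ ℝ ℝ).comp_right_fderiv (f := S) (x := z)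
  have h2 : (S ∘ (ContinuousLinearEquiv.prodComm ℝ ℝ ℝ)) = fun w => S w.swap := by
    ext w
    simp
  rw [h2] at h
  unfold px py
  rw [h]
  simp

theorem Chart.swap {a b : ℝ → ℝ} {W : Set (ℝ × ℝ)} {S : ℝ × ℝ → ℝ} {C : ℝ}
    (h : Chart b a W S C) : Chart a b (Prod.swap ⁻¹' W) (fun z => S z.swap) C := by
  refine ⟨h.isOpen.preimage continuous_swap, ?_, ?_, ?_, h.nonneg, ?_⟩
  · have h1 : Prod.swap ⁻¹' W = Prod.swap '' W := by
      rw [← image_swap_eq_preimage_swap]
    rw [h1]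
    have h2 : LipschitzWith 1 (Prod.swap : ℝ × ℝ → ℝ × ℝ) := LipschitzWith.of_dist_le_mul
      (fun x y => by
        simp only [Prod.dist_eq, Prod.fst_swap, Prod.snd_swap, NNReal.coe_one, one_mul]
        rw [max_comm])
    exact h2.isBounded_image h.bdd
  · intro z hz
    exact (h.smooth z.swap hz).comp z (by
      have : ContDiff ℝ 2 (Prod.swap : ℝ × ℝ → ℝ × ℝ) := contDiff_snd.prodMk contDiff_fst
      exact this.contDiffAt)
  · intro t ht htW
    exact h.param t ht htW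
  · intro f hf
    have h1 := h.energy f hf
    refine le_trans (le_of_eq ?_) h1
    have h2 : MeasurePreserving (Prod.swap : ℝ × ℝ → ℝ × ℝ) volume volume :=
      Measure.measurePreserving_swap
    have h3 := h2.setLIntegral_comp_preimage_emb
      (MeasurableEquiv.prodComm : ℝ × ℝ ≃ᵐ ℝ × ℝ).measurableEmbedding
      (fun z => ENNReal.ofReal (f (S z) ^ 2 * (px S z ^ 2 + py S z ^ 2))) W
    rw [← h3]
    refine lintegral_congr fun z => ?_
    have h4 := px_comp_swap S z
    rw [h4.1, h4.2, add_comm (py S z.swap ^ 2)]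

theorem exists_chart {a b : ℝ → ℝ} (hab : IsArc a b) {t0 : ℝ} (ht0 : t0 ∈ Icc (0 : ℝ) 1) :
    ∃ W S C, Chart a b W S C ∧ (a t0, b t0) ∈ W := by
  rcases hab.reg t0 ht0 with h | h
  · exact exists_chart_fst hab ht0 h
  · obtain ⟨W, S, C, hc, hm⟩ := exists_chart_fst hab.swap ht0 h
    exact ⟨_, _, _, hc.swap, hm⟩

/-- The primitive of `f` from `0`. -/
noncomputable def prim (f : ℝ → ℝ) (t : ℝ) : ℝ := ∫ s in (0 : ℝ)..t, f s

theorem prim_hasDeriv {f : ℝ → ℝ} (hf : Continuous f) (t : ℝ) : HasDerivAt (prim f) (f t) t :=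
  intervalIntegral.integral_hasDerivAt_right (hf.intervalIntegrable _ _)
    hf.stronglyMeasurable.stronglyMeasurableAtFilter hf.continuousAt

theorem prim_contDiff {f : ℝ → ℝ} (hf : ContDiff ℝ 1 f) : ContDiff ℝ 2 (prim f) := by
  have h2 : (2 : WithTop ℕ∞) = 1 + 1 := by norm_num
  rw [h2, contDiff_succ_iff_deriv]
  have hd : deriv (prim f) = f := funext fun t => (prim_hasDeriv hf.continuous t).deriv
  refine ⟨fun t => (prim_hasDeriv hf.continuous t).differentiableAt, by simp, ?_⟩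
  rw [hd]
  exact hf

theorem lintegral_sq {f : ℝ → ℝ} (hf : Continuous f) (h0 : ∀ t ∉ Ioo (0 : ℝ) 1, f t = 0) :
    ∫⁻ t, ENNReal.ofReal (f t ^ 2) = ENNReal.ofReal (∫ t in Icc (0 : ℝ) 1, f t ^ 2) := by
  have h1 : ∫ t in Icc (0 : ℝ) 1, f t ^ 2 = ∫ t, f t ^ 2 := by
    refine setIntegral_eq_integral_of_forall_compl_eq_zero fun t ht => ?_
    rw [h0 t (fun h => ht (Ioo_subset_Icc_self h))]
    simp
  have hsupp : HasCompactSupport (fun t => f t ^ 2) := by
    refine HasCompactSupport.intro (K := Icc (0 : ℝ) 1) isCompact_Icc fun t ht => ?_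
    rw [h0 t (fun h => ht (Ioo_subset_Icc_self h))]
    simp
  rw [h1]
  exact (ofReal_integral_eq_lintegral_ofReal (f := fun t => f t ^ 2)
    ((hf.pow 2).integrable_of_hasCompactSupport hsupp)
    (Eventually.of_forall fun t => sq_nonneg _)).symm

theorem prim_sq_le {f : ℝ → ℝ} (hf : Continuous f) (h0 : ∀ t ∉ Ioo (0 : ℝ) 1, f t = 0) (t : ℝ) :
    prim f t ^ 2 ≤ ∫ s in Icc (0 : ℝ) 1, f s ^ 2 := by
  have hi : IntegrableOn (fun s => |f s|) (Icc (0 : ℝ) 1) :=
    hf.abs.continuousOn.integrableOn_Icc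
  have h1 : |prim f t| ≤ ∫ s in Icc (0 : ℝ) 1, |f s| := by
    have e1 : ∫ s in Icc (0 : ℝ) 1, |f s| = ∫ s, |f s| := by
      refine setIntegral_eq_integral_of_forall_compl_eq_zero fun t ht => ?_
      rw [h0 t (fun h => ht (Ioo_subset_Icc_self h))]
      simp
    have hsupp : HasCompactSupport (fun t => |f t|) := by
      refine HasCompactSupport.intro (K := Icc (0 : ℝ) 1) isCompact_Icc fun t ht => ?_
      rw [h0 t (fun h => ht (Ioo_subset_Icc_self h))]
      simp
    have hint : Integrable (fun t => |f t|) := hf.abs.integrable_of_hasCompactSupport hsupp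
    calc |prim f t| ≤ ∫ s in uIoc (0 : ℝ) t, |f s| := by
          have := intervalIntegral.norm_integral_le_integral_norm_uIoc
            (f := f) (a := 0) (b := t) (μ := volume)
          unfold prim
          simpa only [Real.norm_eq_abs] using this
      _ ≤ ∫ s, |f s| := setIntegral_le_integral hint (Eventually.of_forall fun s => abs_nonneg _)
      _ = _ := e1.symm
  have h2 : (∫ s in Icc (0 : ℝ) 1, |f s|) ^ 2 ≤ ∫ s in Icc (0 : ℝ) 1, f s ^ 2 := by
    have hi2 : IntegrableOn (fun s => f s ^ 2) (Icc (0 : ℝ) 1) :=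
      (hf.pow 2).continuousOn.integrableOn_Icc
    set I := ∫ s in Icc (0 : ℝ) 1, |f s| with hI
    have h3 : 0 ≤ ∫ s in Icc (0 : ℝ) 1, (|f s| - I) ^ 2 := integral_nonneg fun s => sq_nonneg _
    have h4 : ∫ s in Icc (0 : ℝ) 1, (|f s| - I) ^ 2 =
        (∫ s in Icc (0 : ℝ) 1, f s ^ 2) - 2 * I * (∫ s in Icc (0 : ℝ) 1, |f s|) + I ^ 2 := by
      have h5 : ∀ s, (|f s| - I) ^ 2 = f s ^ 2 - 2 * I * |f s| + I ^ 2 := fun s => by
        rw [← sq_abs (f s)]
        ring
      simp_rw [h5]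
      have h6 : IntegrableOn (fun s => f s ^ 2 - 2 * I * |f s|) (Icc (0 : ℝ) 1) :=
        hi2.sub (hi.const_mul _)
      have h7 : IntegrableOn (fun s => 2 * I * |f s|) (Icc (0 : ℝ) 1) := hi.const_mul _
      rw [integral_add h6 (integrable_const _), integral_sub hi2 h7, integral_const_mul,
        setIntegral_const]
      simp
    rw [← hI] at h4
    nlinarith
  calc prim f t ^ 2 = |prim f t| ^ 2 := (sq_abs _).symm
    _ ≤ (∫ s in Icc (0 : ℝ) 1, |f s|) ^ 2 := by gcongr
    _ ≤ _ := h2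

end Q62.DP
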