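import Pool.Agent.Q62.DP.Ext

set_option autoImplicit false

namespace Q62.DP

open MeasureTheory Set Filter Topology

theorem continuous_px {φ : ℝ × ℝ → ℝ} (h : ContDiff ℝ 1 φ) : Continuous (px φ) :=
  (h.continuous_fderiv (by norm_num)).clm_apply continuous_const

theorem continuous_py {φ : ℝ × ℝ → ℝ} (h : ContDiff ℝ 1 φ) : Continuous (py φ) :=
  (h.continuous_fderiv (by norm_num)).clm_apply continuous_const

theorem hasCompactSupport_px {φ : ℝ × ℝ → ℝ} (h : HasCompactSupport φ) :
    HasCompactSupport (px φ) := by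
  have := h.fderiv (𝕜 := ℝ)
  exact this.comp_left (g := fun L : ℝ × ℝ →L[ℝ] ℝ => L (1, 0)) (by simp)

theorem hasCompactSupport_py {φ : ℝ × ℝ → ℝ} (h : HasCompactSupport φ) :
    HasCompactSupport (py φ) := by
  have := h.fderiv (𝕜 := ℝ)
  exact this.comp_left (g := fun L : ℝ × ℝ →L[ℝ] ℝ => L (0, 1)) (by simp)

/-- The squared length of the gradient. -/
noncomputable def gsq (φ : ℝ × ℝ → ℝ) (z : ℝ × ℝ) : ℝ := px φ z ^ 2 + py φ z ^ 2

theorem gsq_nonneg (φ : ℝ × ℝ → ℝ) (z : ℝ × ℝ) : 0 ≤ gsq φ z := by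
  unfold gsq
  positivity

theorem continuous_gsq {φ : ℝ × ℝ → ℝ} (h : ContDiff ℝ 1 φ) : Continuous (gsq φ) :=
  ((continuous_px h).pow 2).add ((continuous_py h).pow 2)

theorem hasCompactSupport_gsq {φ : ℝ × ℝ → ℝ} (h : HasCompactSupport φ) :
    HasCompactSupport (gsq φ) := by
  have h1 := (hasCompactSupport_px h).comp_left (g := fun x : ℝ => x ^ 2) (by simp)
  have h2 := (hasCompactSupport_py h).comp_left (g := fun x : ℝ => x ^ 2) (by simp)
  exact h1.add h2

theorem integrable_gsq {φ : ℝ × ℝ → ℝ} (h : ContDiff ℝ 1 φ) (hc : HasCompactSupport φ) :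
    Integrable (gsq φ) :=
  (continuous_gsq h).integrable_of_hasCompactSupport (hasCompactSupport_gsq hc)

theorem integral_gsq_nonneg (φ : ℝ × ℝ → ℝ) : 0 ≤ ∫ z, gsq φ z :=
  integral_nonneg fun z => gsq_nonneg φ z

theorem piece {a b : ℝ → ℝ} {W : Set (ℝ × ℝ)} {S : ℝ × ℝ → ℝ} {C : ℝ} (hc : Chart a b W S C)
    {ρ : ℝ × ℝ → ℝ} (hρ : ContDiff ℝ 2 ρ) (hsub : tsupport ρ ⊆ W) (h1 : ∀ z, |ρ z| ≤ 1) :
    ∃ D : ℝ, 0 ≤ D ∧ ∀ f : ℝ → ℝ, ContDiff ℝ 1 f → (∀ t ∉ Ioo (0 : ℝ) 1, f t = 0) →
      ContDiff ℝ 2 (fun z => ρ z * prim f (S z)) ∧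
      HasCompactSupport (fun z => ρ z * prim f (S z)) ∧
      ∫ z, gsq (fun z => ρ z * prim f (S z)) z ≤ D * ∫ t in Icc (0 : ℝ) 1, f t ^ 2 := by
  have hρc : HasCompactSupport ρ := by
    refine Metric.isCompact_of_isClosed_isBounded (isClosed_tsupport ρ) (hc.bdd.subset hsub)
  have hρ1 : ContDiff ℝ 1 ρ := hρ.of_le (by norm_num)
  have hDi := integrable_gsq hρ1 hρc
  refine ⟨2 * C + 2 * ∫ z, gsq ρ z, by
    have := integral_gsq_nonneg ρ
    have := hc.nonneg
    positivity, ?_⟩
  intro f hf h0
  have hP : ContDiff ℝ 2 (prim f) := prim_contDiff hf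
  have hout : ∀ z ∉ W, (fun w => ρ w * prim f (S w)) =ᶠ[𝓝 z] fun _ => 0 := by
    intro z hz
    have hz' : z ∉ tsupport ρ := fun h => hz (hsub h)
    filter_upwards [notMem_tsupport_iff_eventuallyEq.1 hz'] with w hw
    rw [hw]
    simp
  have hcd : ContDiff ℝ 2 (fun z => ρ z * prim f (S z)) := by
    rw [contDiff_iff_contDiffAt]
    intro z
    by_cases hz : z ∈ W
    · exact hρ.contDiffAt.mul (hP.contDiffAt.comp z (hc.smooth z hz))
    · exact contDiffAt_const.congr_of_eventuallyEq (hout z hz)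
  have hcs : HasCompactSupport (fun z => ρ z * prim f (S z)) := hρc.mul_right
  refine ⟨hcd, hcs, ?_⟩
  set E := ∫ t in Icc (0 : ℝ) 1, f t ^ 2 with hE
  have hE0 : 0 ≤ E := integral_nonneg fun t => sq_nonneg _
  have hpt : ∀ z, ENNReal.ofReal (gsq (fun z => ρ z * prim f (S z)) z) ≤
      W.indicator (fun z => ENNReal.ofReal 2 *
        ENNReal.ofReal (f (S z) ^ 2 * (px S z ^ 2 + py S z ^ 2))) z +
      ENNReal.ofReal (2 * E * gsq ρ z) := by
    intro z
    by_cases hz : z ∈ W
    · rw [indicator_of_mem hz, ← ENNReal.ofReal_mul (by norm_num),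
        ← ENNReal.ofReal_add (by positivity) (by
          have := gsq_nonneg ρ z
          positivity)]
      refine ENNReal.ofReal_le_ofReal ?_
      have hSd : HasFDerivAt S (fderiv ℝ S z) z :=
        ((hc.smooth z hz).differentiableAt (by norm_num)).hasFDerivAt
      have hPd : HasFDerivAt (fun w => prim f (S w)) (f (S z) • fderiv ℝ S z) z :=
        (prim_hasDeriv hf.continuous (S z)).comp_hasFDerivAt z hSd
      have hρd : HasFDerivAt ρ (fderiv ℝ ρ z) z :=
        (hρ.differentiable (by norm_num) z).hasFDerivAt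
      have hmul := hρd.mul hPd
      have e1 : px (fun z => ρ z * prim f (S z)) z =
          ρ z * (f (S z) * px S z) + prim f (S z) * px ρ z := by
        have : fderiv ℝ (fun z => ρ z * prim f (S z)) z = _ := hmul.fderiv
        unfold px
        rw [this]
        simp
      have e2 : py (fun z => ρ z * prim f (S z)) z =
          ρ z * (f (S z) * py S z) + prim f (S z) * py ρ z := by
        have : fderiv ℝ (fun z => ρ z * prim f (S z)) z = _ := hmul.fderiv
        unfold py
        rw [this]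
        simp
      have hr2 : ρ z ^ 2 ≤ 1 := by
        rw [← sq_abs]
        have := h1 z
        have := abs_nonneg (ρ z)
        nlinarith
      have hp2 : prim f (S z) ^ 2 ≤ E := prim_sq_le hf.continuous h0 _
      have key : ∀ x y : ℝ, (ρ z * (f (S z) * x) + prim f (S z) * y) ^ 2 ≤
          2 * (f (S z) ^ 2 * x ^ 2) + 2 * E * y ^ 2 := by
        intro x y
        have k1 : (ρ z * (f (S z) * x) + prim f (S z) * y) ^ 2 ≤
            2 * (ρ z ^ 2 * (f (S z) * x) ^ 2) + 2 * (prim f (S z) ^ 2 * y ^ 2) := by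
          nlinarith [sq_nonneg (ρ z * (f (S z) * x) - prim f (S z) * y)]
        have k2 : ρ z ^ 2 * (f (S z) * x) ^ 2 ≤ 1 * (f (S z) * x) ^ 2 :=
          mul_le_mul_of_nonneg_right hr2 (sq_nonneg _)
        have k3 : prim f (S z) ^ 2 * y ^ 2 ≤ E * y ^ 2 :=
          mul_le_mul_of_nonneg_right hp2 (sq_nonneg _)
        nlinarith
      unfold gsq
      rw [e1, e2]
      have k4 := key (px S z) (px ρ z)
      have k5 := key (py S z) (py ρ z)
      nlinarith
    · have h2 : gsq (fun z => ρ z * prim f (S z)) z = 0 := by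
        unfold gsq px py
        rw [(hout z hz).fderiv_eq]
        simp
      rw [h2]
      simp
  have hint := integrable_gsq (hcd.of_le (by norm_num)) hcs
  have hfin : ENNReal.ofReal (∫ z, gsq (fun z => ρ z * prim f (S z)) z) ≤
      ENNReal.ofReal ((2 * C + 2 * ∫ z, gsq ρ z) * E) := by
    rw [ofReal_integral_eq_lintegral_ofReal hint (Eventually.of_forall fun z => gsq_nonneg _ z)]
    calc _ ≤ ∫⁻ z, (W.indicator (fun z => ENNReal.ofReal 2 *
              ENNReal.ofReal (f (S z) ^ 2 * (px S z ^ 2 + py S z ^ 2))) z +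
              ENNReal.ofReal (2 * E * gsq ρ z)) := lintegral_mono hpt
      _ = (∫⁻ z, W.indicator (fun z => ENNReal.ofReal 2 *
              ENNReal.ofReal (f (S z) ^ 2 * (px S z ^ 2 + py S z ^ 2))) z) +
            ∫⁻ z, ENNReal.ofReal (2 * E * gsq ρ z) := by
          rw [lintegral_add_right]
          exact (ENNReal.continuous_ofReal.comp
            (continuous_const.mul (continuous_gsq hρ1))).measurable
      _ ≤ ENNReal.ofReal 2 * (ENNReal.ofReal C * ENNReal.ofReal E) +
            ENNReal.ofReal (2 * E * ∫ z, gsq ρ z) := by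
          refine add_le_add ?_ (le_of_eq ?_)
          · rw [lintegral_indicator hc.isOpen.measurableSet,
              lintegral_const_mul' _ _ ENNReal.ofReal_ne_top]
            gcongr
            refine (hc.energy f hf.continuous).trans (le_of_eq ?_)
            rw [lintegral_sq hf.continuous h0]
          · have h5 : 2 * E * ∫ z, gsq ρ z = ∫ z, 2 * E * gsq ρ z :=
              (integral_const_mul _ _).symm
            rw [h5, ofReal_integral_eq_lintegral_ofReal (hDi.const_mul _)
                (Eventually.of_forall fun z => by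
                  have := gsq_nonneg ρ z
                  change 0 ≤ 2 * E * gsq ρ z
                  positivity)]
      _ = _ := by
          have := hc.nonneg
          have h3 := integral_gsq_nonneg ρ
          rw [← ENNReal.ofReal_mul (by positivity), ← ENNReal.ofReal_mul (by positivity),
            ← ENNReal.ofReal_add (by positivity) (by positivity)]
          congr 1
          ring
  refine (ENNReal.ofReal_le_ofReal_iff ?_).1 hfin
  have := hc.nonneg
  have h3 := integral_gsq_nonneg ρ
  positivity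

end Q62.DP
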