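import Pool.Agent.Q62.DP.Ext2

set_option autoImplicit false

namespace Q62.DP

open MeasureTheory Set Filter Topology
open scoped Manifold ContDiff

theorem isCompact_arc {a b : ℝ → ℝ} (hab : IsArc a b) : IsCompact (arc a b) :=
  isCompact_Icc.image (hab.smooth_fst.continuous.prodMk hab.smooth_snd.continuous)

theorem gsq_sum_le {ι : Type*} (s : Finset ι) (φ : ι → ℝ × ℝ → ℝ)
    (h : ∀ i, Differentiable ℝ (φ i)) (z : ℝ × ℝ) :
    gsq (fun w => ∑ i ∈ s, φ i w) z ≤ s.card * ∑ i ∈ s, gsq (φ i) z := by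
  have h1 : fderiv ℝ (fun w => ∑ i ∈ s, φ i w) z = ∑ i ∈ s, fderiv ℝ (φ i) z :=
    fderiv_fun_sum fun i _ => (h i) z
  have e1 : px (fun w => ∑ i ∈ s, φ i w) z = ∑ i ∈ s, px (φ i) z := by
    unfold px
    rw [h1]
    simp
  have e2 : py (fun w => ∑ i ∈ s, φ i w) z = ∑ i ∈ s, py (φ i) z := by
    unfold py
    rw [h1]
    simp
  unfold gsq
  rw [e1, e2, Finset.sum_add_distrib, mul_add]
  exact add_le_add (sq_sum_le_card_mul_sum_sq) (sq_sum_le_card_mul_sum_sq)

theorem exists_ext {a b : ℝ → ℝ} (hab : IsArc a b) : ∃ C : ℝ, 0 ≤ C ∧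
    ∀ f : ℝ → ℝ, ContDiff ℝ 1 f → (∀ t ∉ Ioo (0 : ℝ) 1, f t = 0) →
      ∃ χ : ℝ × ℝ → ℝ, ContDiff ℝ 2 χ ∧ HasCompactSupport χ ∧
        (∀ t ∈ Icc (0 : ℝ) 1, χ (a t, b t) = prim f t) ∧
        ∫ z, gsq χ z ≤ C * ∫ t in Icc (0 : ℝ) 1, f t ^ 2 := by
  classical
  choose! W S C hW hmem using fun (t : ℝ) (ht : t ∈ Icc (0 : ℝ) 1) => exists_chart hab ht
  obtain ⟨T, hT⟩ := (isCompact_arc hab).elim_finite_subcover
    (fun t : Icc (0 : ℝ) 1 => W t) (fun t => (hW t t.2).isOpen) (by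
      rintro _ ⟨t, ht, rfl⟩
      exact mem_iUnion.2 ⟨⟨t, ht⟩, hmem t ht⟩)
  obtain ⟨ρ, hρ⟩ := SmoothPartitionOfUnity.exists_isSubordinate 𝓘(ℝ, ℝ × ℝ)
    (isCompact_arc hab).isClosed (fun t : T => W t) (fun t => (hW t.1 t.1.2).isOpen) (by
      intro z hz
      have := hT hz
      simp only [mem_iUnion] at this ⊢
      obtain ⟨i, hi, hz'⟩ := this
      exact ⟨⟨i, hi⟩, hz'⟩)
  have hρs : ∀ t : T, ContDiff ℝ 2 (ρ t) := fun t => by
    have := (ρ t).contMDiff.contDiff
    exact this.of_le (WithTop.coe_le_coe.2 (le_top : (2 : ℕ∞) ≤ ⊤))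
  have hρ1 : ∀ (t : T) z, |ρ t z| ≤ 1 := fun t z => by
    rw [abs_of_nonneg (ρ.nonneg t z)]
    exact ρ.le_one t z
  choose D hD hpc using fun t : T => piece (hW t.1 t.1.2) (hρs t) (hρ t) (hρ1 t)
  refine ⟨Fintype.card T * ∑ t, D t, by
    have := Finset.sum_nonneg (s := Finset.univ) fun t _ => hD t
    positivity, ?_⟩
  intro f hf h0
  set φ : T → ℝ × ℝ → ℝ := fun t z => ρ t z * prim f (S t z) with hφ
  have hφ2 : ∀ t, ContDiff ℝ 2 (φ t) := fun t => (hpc t f hf h0).1
  have hφc : ∀ t, HasCompactSupport (φ t) := fun t => (hpc t f hf h0).2.1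
  have hcs : ∀ s : Finset T, HasCompactSupport fun z => ∑ t ∈ s, φ t z := by
    intro s
    induction s using Finset.induction_on with
    | empty =>
      simp only [Finset.sum_empty]
      exact HasCompactSupport.zero
    | insert i s hi ih =>
      simp only [Finset.sum_insert hi]
      exact (hφc i).add ih
  refine ⟨fun z => ∑ t, φ t z, ContDiff.sum fun t _ => hφ2 t, hcs _, ?_, ?_⟩
  · intro t ht
    have hz : ((a t, b t) : ℝ × ℝ) ∈ arc a b := ⟨t, ht, rfl⟩
    have h1 : ∑ i, ρ i (a t, b t) = 1 := by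
      have := ρ.sum_eq_one hz
      rwa [finsum_eq_sum_of_fintype] at this
    have h2 : ∀ i : T, φ i (a t, b t) = ρ i (a t, b t) * prim f t := by
      intro i
      by_cases hi : ((a t, b t) : ℝ × ℝ) ∈ W i
      · simp only [hφ]
        rw [(hW i.1 i.1.2).param t ht hi]
      · have : ρ i (a t, b t) = 0 := by
          by_contra hne
          exact hi (hρ i (subset_tsupport _ hne))
        simp only [hφ]
        rw [this, zero_mul, zero_mul]
    simp_rw [h2]
    rw [← Finset.sum_mul, h1, one_mul]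
  · have hi : ∀ t, Integrable (gsq (φ t)) := fun t =>
      integrable_gsq ((hφ2 t).of_le (by norm_num)) (hφc t)
    calc ∫ z, gsq (fun z => ∑ t, φ t z) z ≤
          ∫ z, (Fintype.card T : ℝ) * ∑ t, gsq (φ t) z := by
          refine integral_mono ?_ ?_ ?_
          · exact integrable_gsq ((ContDiff.sum fun t _ => hφ2 t).of_le (by norm_num)) (hcs _)
          · exact (integrable_finsetSum _ fun t _ => hi t).const_mul _
          · intro z
            exact gsq_sum_le Finset.univ φ (fun t => (hφ2 t).differentiable (by norm_num)) z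
      _ = (Fintype.card T : ℝ) * ∑ t, ∫ z, gsq (φ t) z := by
          rw [integral_const_mul, integral_finsetSum _ fun t _ => hi t]
      _ ≤ (Fintype.card T : ℝ) * ∑ t, D t * ∫ t in Icc (0 : ℝ) 1, f t ^ 2 := by
          gcongr with t _
          exact (hpc t f hf h0).2.2
      _ = _ := by
          rw [← Finset.sum_mul, mul_assoc]

end Q62.DP
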