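import Pool.Agent.Q62.DP.Dual

set_option autoImplicit false

namespace Q62.DP

open MeasureTheory Set Filter Topology
open scoped ContDiff

theorem sq_le_of_forall {X E G : ℝ} (hX : 0 ≤ X) (hE : 0 ≤ E) (hG : 0 ≤ G)
    (h : ∀ l : ℝ, 0 < l → 2 * l * X ≤ l ^ 2 * E + G) : X ^ 2 ≤ E * G := by
  rcases hX.eq_or_lt with h0 | h0
  · rw [← h0]
    simpa using mul_nonneg hE hG
  rcases hE.eq_or_lt with h1 | h1
  · exfalso
    have h2 := h ((G + 1) / (2 * X)) (by positivity)
    rw [← h1] at h2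
    have h3 : 2 * ((G + 1) / (2 * X)) * X = G + 1 := by field_simp
    rw [h3] at h2
    linarith
  · have h2 := h (X / E) (by positivity)
    have h3 : 2 * (X / E) * X = 2 * X ^ 2 / E := by ring
    have h4 : (X / E) ^ 2 * E = X ^ 2 / E := by field_simp
    rw [h3, h4] at h2
    have h5 : X ^ 2 / E ≤ G := by
      have : 2 * X ^ 2 / E = X ^ 2 / E + X ^ 2 / E := by ring
      linarith
    rw [div_le_iff₀ h1] at h5
    linarith

theorem memLp_ofReal {φ : ℝ × ℝ → ℝ} (h : Continuous φ) (hc : HasCompactSupport φ) :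
    MemLp (fun z => (φ z : ℂ)) 2 (volume : Measure (ℝ × ℝ)) := by
  have h1 : MemLp φ 2 (volume : Measure (ℝ × ℝ)) := h.memLp_of_hasCompactSupport hc
  exact h1.ofReal

theorem px_py_comm {χ : ℝ × ℝ → ℝ} (h : ContDiff ℝ 2 χ) (z : ℝ × ℝ) :
    px (py χ) z = py (px χ) z := by
  have hd : Differentiable ℝ (fderiv ℝ χ) :=
    (h.fderiv_right (m := 1) (by norm_num)).differentiable (by norm_num)
  have e1 : px (py χ) z = (fderiv ℝ (fderiv ℝ χ) z (1, 0)) (0, 1) := by
    have : HasFDerivAt (fun w => fderiv ℝ χ w (0, 1))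
        ((ContinuousLinearMap.apply ℝ ℝ ((0, 1) : ℝ × ℝ)).comp (fderiv ℝ (fderiv ℝ χ) z)) z :=
      (ContinuousLinearMap.apply ℝ ℝ ((0, 1) : ℝ × ℝ)).hasFDerivAt.comp z (hd z).hasFDerivAt
    change fderiv ℝ (fun w => fderiv ℝ χ w (0, 1)) z (1, 0) = _
    rw [this.fderiv]
    simp
  have e2 : py (px χ) z = (fderiv ℝ (fderiv ℝ χ) z (0, 1)) (1, 0) := by
    have : HasFDerivAt (fun w => fderiv ℝ χ w (1, 0))
        ((ContinuousLinearMap.apply ℝ ℝ ((1, 0) : ℝ × ℝ)).comp (fderiv ℝ (fderiv ℝ χ) z)) z :=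
      (ContinuousLinearMap.apply ℝ ℝ ((1, 0) : ℝ × ℝ)).hasFDerivAt.comp z (hd z).hasFDerivAt
    change fderiv ℝ (fun w => fderiv ℝ χ w (1, 0)) z (0, 1) = _
    rw [this.fderiv]
    simp
  have hs : IsSymmSndFDerivAt ℝ χ z := h.contDiffAt.isSymmSndFDerivAt (by simp)
  rw [e1, e2]
  exact hs _ _

theorem contDiff_px {χ : ℝ × ℝ → ℝ} (h : ContDiff ℝ 2 χ) : ContDiff ℝ 1 (px χ) :=
  (h.fderiv_right (m := 1) (by norm_num)).clm_apply contDiff_const

theorem contDiff_py {χ : ℝ × ℝ → ℝ} (h : ContDiff ℝ 2 χ) : ContDiff ℝ 1 (py χ) :=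
  (h.fderiv_right (m := 1) (by norm_num)).clm_apply contDiff_const

/-- The total energy `∫ |∇u|²`. -/
noncomputable def energy (g h : ℝ × ℝ → ℂ) : ℝ := ∫ z, (‖g z‖ ^ 2 + ‖h z‖ ^ 2)

theorem integrable_energy {g h : ℝ × ℝ → ℂ} (hg : MemLp g 2 volume) (hh : MemLp h 2 volume) :
    Integrable (fun z => ‖g z‖ ^ 2 + ‖h z‖ ^ 2) :=
  ((memLp_two_iff_integrable_sq_norm hg.1).1 hg).add ((memLp_two_iff_integrable_sq_norm hh.1).1 hh)

theorem green_pair {a b : ℝ → ℝ} (hab : IsArc a b) {u g h : ℝ × ℝ → ℂ} {J : ℝ → ℂ}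
    (hu : MemLp u 2 volume) (hg : MemLp g 2 volume) (hh : MemLp h 2 volume)
    (hJ : IsJump a b u g h J) {f : ℝ → ℝ} {χ : ℝ × ℝ → ℝ} (hχ : ContDiff ℝ 2 χ)
    (hc : HasCompactSupport χ) (hf : Continuous f)
    (hχf : ∀ t ∈ Icc (0 : ℝ) 1, χ (a t, b t) = prim f t) :
    ∫ t in Icc (0 : ℝ) 1, J t * (f t : ℂ) = ∫ z, (g z * (py χ z : ℂ) - h z * (px χ z : ℂ)) := by
  have hcpx := hasCompactSupport_px hc
  have hcpy := hasCompactSupport_py hc
  have hpx1 := contDiff_px hχ
  have hpy1 := contDiff_py hχ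
  have e1 := hJ.green_fst (py χ) hpy1 hcpy
  have e2 := hJ.green_snd (px χ) hpx1 hcpx
  have i1 : Integrable (fun z => u z * (px (py χ) z : ℂ)) :=
    hu.integrable_mul (memLp_ofReal (continuous_px hpy1) (hasCompactSupport_px hcpy))
  have i2 : Integrable (fun z => g z * (py χ z : ℂ)) :=
    hg.integrable_mul (memLp_ofReal hpy1.continuous hcpy)
  have i3 : Integrable (fun z => u z * (py (px χ) z : ℂ)) :=
    hu.integrable_mul (memLp_ofReal (continuous_py hpx1) (hasCompactSupport_py hcpx))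
  have i4 : Integrable (fun z => h z * (px χ z : ℂ)) :=
    hh.integrable_mul (memLp_ofReal hpx1.continuous hcpx)
  rw [integral_add i1 i2] at e1
  rw [integral_add i3 i4] at e2
  have e3 : ∫ z, u z * (px (py χ) z : ℂ) = ∫ z, u z * (py (px χ) z : ℂ) := by
    refine integral_congr_ae (Eventually.of_forall fun z => ?_)
    simp only [px_py_comm hχ z]
  rw [integral_sub i2 i4]
  -- the boundary terms
  have hca : Continuous (deriv a) := hab.smooth_fst.continuous_deriv (by norm_num)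
  have hcb : Continuous (deriv b) := hab.smooth_snd.continuous_deriv (by norm_num)
  have hγ : Continuous (fun t : ℝ => ((a t, b t) : ℝ × ℝ)) :=
    hab.smooth_fst.continuous.prodMk hab.smooth_snd.continuous
  have hJi : ∀ k : ℝ → ℝ, Continuous k →
      Integrable (fun t => J t * (k t : ℂ)) (volume.restrict (Icc (0 : ℝ) 1)) := by
    intro k hk
    have h1 : MemLp (fun t => (k t : ℂ)) 2 (volume.restrict (Icc (0 : ℝ) 1)) := by
      obtain ⟨B, hB⟩ := isCompact_Icc.exists_bound_of_continuousOn (s := Icc (0 : ℝ) 1)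
        (f := fun t => (k t : ℂ)) (Complex.continuous_ofReal.comp hk).continuousOn
      refine MemLp.of_bound (Complex.continuous_ofReal.comp hk).aestronglyMeasurable B ?_
      filter_upwards [ae_restrict_mem measurableSet_Icc] with t ht
      exact hB t ht
    exact hJ.mem.integrable_mul h1
  have j1 := hJi (fun t => deriv b t * py χ (a t, b t)) (hcb.mul (hpy1.continuous.comp hγ))
  have j2 := hJi (fun t => deriv a t * px χ (a t, b t)) (hca.mul (hpx1.continuous.comp hγ))
  have e4 : ∫ t in Icc (0 : ℝ) 1, J t * (f t : ℂ) =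
      (∫ t in Icc (0 : ℝ) 1, J t * ((deriv b t * py χ (a t, b t) : ℝ) : ℂ)) +
      ∫ t in Icc (0 : ℝ) 1, J t * ((deriv a t * px χ (a t, b t) : ℝ) : ℂ) := by
    rw [← integral_add j1 j2, integral_Icc_eq_integral_Ioo, integral_Icc_eq_integral_Ioo]
    refine setIntegral_congr_fun measurableSet_Ioo fun t ht => ?_
    have hd1 : HasDerivAt (fun s => χ (a s, b s))
        (fderiv ℝ χ (a t, b t) (deriv a t, deriv b t)) t := by
      have h1 : HasDerivAt (fun s : ℝ => ((a s, b s) : ℝ × ℝ)) (deriv a t, deriv b t) t :=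
        ((hab.smooth_fst.differentiable (by norm_num)) t).hasDerivAt.prodMk
          ((hab.smooth_snd.differentiable (by norm_num)) t).hasDerivAt
      exact ((hχ.differentiable (by norm_num)) (a t, b t)).hasFDerivAt.comp_hasDerivAt t h1
    have hd2 : HasDerivAt (fun s => χ (a s, b s)) (f t) t := by
      refine (prim_hasDeriv hf t).congr_of_eventuallyEq ?_
      filter_upwards [isOpen_Ioo.mem_nhds ht] with s hs
      exact hχf s (Ioo_subset_Icc_self hs)
    have h2 := hd1.unique hd2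
    have h3 : fderiv ℝ χ (a t, b t) (deriv a t, deriv b t) =
        deriv a t * px χ (a t, b t) + deriv b t * py χ (a t, b t) := by
      have : ((deriv a t, deriv b t) : ℝ × ℝ) =
          deriv a t • ((1, 0) : ℝ × ℝ) + deriv b t • ((0, 1) : ℝ × ℝ) := by
        simp
      rw [this, map_add, map_smul, map_smul]
      rfl
    change J t * (f t : ℂ) = J t * ((deriv b t * py χ (a t, b t) : ℝ) : ℂ) +
      J t * ((deriv a t * px χ (a t, b t) : ℝ) : ℂ)
    rw [← h2, h3]
    push_cast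
    ring
  rw [e4, ← e1]
  have e5 : ∫ t in Icc (0 : ℝ) 1, J t * ((deriv a t * px χ (a t, b t) : ℝ) : ℂ) =
      - ((∫ z, u z * (py (px χ) z : ℂ)) + ∫ z, h z * (px χ z : ℂ)) := by
    rw [e2, neg_neg]
  rw [e5, e3]
  ring

theorem jump_bound {a b : ℝ → ℝ} (hab : IsArc a b) : ∃ C : ℝ, 0 ≤ C ∧
    ∀ u g h : ℝ × ℝ → ℂ, MemLp u 2 volume → MemLp g 2 volume → MemLp h 2 volume →
      ∀ J : ℝ → ℂ, IsJump a b u g h J →
        ∫ t in Icc (0 : ℝ) 1, ‖J t‖ ^ 2 ≤ C * energy g h := by
  obtain ⟨C, hC, hext⟩ := exists_ext hab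
  refine ⟨2 * C, by positivity, ?_⟩
  intro u g h hu hg hh J hJ
  have hE0 : 0 ≤ energy g h := integral_nonneg fun z => by positivity
  set M := Real.sqrt (C * energy g h) with hM
  have hM0 : 0 ≤ M := Real.sqrt_nonneg _
  have hM2 : M ^ 2 = C * energy g h := Real.sq_sqrt (by positivity)
  have key : ∀ f : ℝ → ℝ, ContDiff ℝ ∞ f → HasCompactSupport f → tsupport f ⊆ Ioo (0 : ℝ) 1 →
      ‖∫ t in Icc (0 : ℝ) 1, J t * (f t : ℂ)‖ ≤
        M * Real.sqrt (∫ t in Icc (0 : ℝ) 1, f t ^ 2) := by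
    intro f hf _ hfs
    have hf0 : ∀ t ∉ Ioo (0 : ℝ) 1, f t = 0 := fun t ht => by
      by_contra hne
      exact ht (hfs (subset_tsupport _ hne))
    have hf1 : ContDiff ℝ 1 f := hf.of_le (WithTop.coe_le_coe.2 (le_top : (1 : ℕ∞) ≤ ⊤))
    obtain ⟨χ, hχ, hχc, hχf, hχe⟩ := hext f hf1 hf0
    rw [green_pair hab hu hg hh hJ hχ hχc hf.continuous hχf]
    set F := ∫ t in Icc (0 : ℝ) 1, f t ^ 2 with hF
    have hF0 : 0 ≤ F := integral_nonneg fun t => sq_nonneg _
    set X := ‖∫ z, (g z * (py χ z : ℂ) - h z * (px χ z : ℂ))‖ with hX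
    have hX2 : X ^ 2 ≤ energy g h * ∫ z, gsq χ z := by
      refine sq_le_of_forall (norm_nonneg _) hE0 (integral_gsq_nonneg χ) fun l hl => ?_
      have hI1 := integrable_energy hg hh
      have hI2 := integrable_gsq (hχ.of_le (by norm_num)) hχc
      have i2 : Integrable (fun z => g z * (py χ z : ℂ)) :=
        hg.integrable_mul (memLp_ofReal (contDiff_py hχ).continuous (hasCompactSupport_py hχc))
      have i4 : Integrable (fun z => h z * (px χ z : ℂ)) :=
        hh.integrable_mul (memLp_ofReal (contDiff_px hχ).continuous (hasCompactSupport_px hχc))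
      calc 2 * l * X ≤ 2 * l * ∫ z, ‖g z * (py χ z : ℂ) - h z * (px χ z : ℂ)‖ := by
            gcongr
            exact norm_integral_le_integral_norm _
        _ = ∫ z, 2 * l * ‖g z * (py χ z : ℂ) - h z * (px χ z : ℂ)‖ :=
            (integral_const_mul _ _).symm
        _ ≤ ∫ z, (l ^ 2 * (‖g z‖ ^ 2 + ‖h z‖ ^ 2) + gsq χ z) := by
            refine integral_mono ((i2.sub i4).norm.const_mul _) ((hI1.const_mul _).add hI2)
              fun z => ?_
            have n1 : ‖g z * (py χ z : ℂ) - h z * (px χ z : ℂ)‖ ≤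
                ‖g z‖ * |py χ z| + ‖h z‖ * |px χ z| := by
              refine (norm_sub_le _ _).trans (le_of_eq ?_)
              rw [norm_mul, norm_mul, Complex.norm_real, Complex.norm_real, Real.norm_eq_abs,
                Real.norm_eq_abs]
            have n2 : 2 * l * (‖g z‖ * |py χ z|) ≤ l ^ 2 * ‖g z‖ ^ 2 + py χ z ^ 2 := by
              rw [← sq_abs (py χ z)]
              nlinarith [sq_nonneg (l * ‖g z‖ - |py χ z|)]
            have n3 : 2 * l * (‖h z‖ * |px χ z|) ≤ l ^ 2 * ‖h z‖ ^ 2 + px χ z ^ 2 := by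
              rw [← sq_abs (px χ z)]
              nlinarith [sq_nonneg (l * ‖h z‖ - |px χ z|)]
            have n4 : 2 * l * ‖g z * (py χ z : ℂ) - h z * (px χ z : ℂ)‖ ≤
                2 * l * (‖g z‖ * |py χ z| + ‖h z‖ * |px χ z|) := by
              gcongr
            change 2 * l * ‖g z * (py χ z : ℂ) - h z * (px χ z : ℂ)‖ ≤
              l ^ 2 * (‖g z‖ ^ 2 + ‖h z‖ ^ 2) + gsq χ z
            unfold gsq
            nlinarith
        _ = l ^ 2 * energy g h + ∫ z, gsq χ z := by
            rw [integral_add (hI1.const_mul _) hI2, integral_const_mul]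
            rfl
    have hX3 : X ^ 2 ≤ (M * Real.sqrt F) ^ 2 := by
      rw [mul_pow, hM2, Real.sq_sqrt hF0]
      calc X ^ 2 ≤ energy g h * ∫ z, gsq χ z := hX2
        _ ≤ energy g h * (C * F) := by gcongr
        _ = _ := by ring
    exact le_of_sq_le_sq hX3 (by positivity)
  have hJn : Integrable (fun t => ‖J t‖ ^ 2) (volume.restrict (Icc (0 : ℝ) 1)) :=
    (memLp_two_iff_integrable_sq_norm hJ.mem.1).1 hJ.mem
  have hJint : ∀ f : ℝ → ℝ, Continuous f →
      Integrable (fun t => J t * (f t : ℂ)) (volume.restrict (Icc (0 : ℝ) 1)) := by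
    intro k hk
    have h1 : MemLp (fun t => (k t : ℂ)) 2 (volume.restrict (Icc (0 : ℝ) 1)) := by
      obtain ⟨B, hB⟩ := isCompact_Icc.exists_bound_of_continuousOn (s := Icc (0 : ℝ) 1)
        (f := fun t => (k t : ℂ)) (Complex.continuous_ofReal.comp hk).continuousOn
      refine MemLp.of_bound (Complex.continuous_ofReal.comp hk).aestronglyMeasurable B ?_
      filter_upwards [ae_restrict_mem measurableSet_Icc] with t ht
      exact hB t ht
    exact hJ.mem.integrable_mul h1
  have hre : ∫ t in Icc (0 : ℝ) 1, (J t).re ^ 2 ≤ M ^ 2 := by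
    refine norm_le_of_pair (J := fun t => (J t).re) hJ.mem.re hM0 fun f hf hc hs => ?_
    have h1 := key f hf hc hs
    have h2 : ∫ t in Icc (0 : ℝ) 1, (J t).re * f t =
        (∫ t in Icc (0 : ℝ) 1, J t * (f t : ℂ)).re := by
      have := integral_re (hJint f hf.continuous)
      simp only [RCLike.re_to_complex] at this
      rw [← this]
      refine integral_congr_ae (Eventually.of_forall fun t => ?_)
      simp
    rw [h2]
    exact (Complex.abs_re_le_norm _).trans h1
  have him : ∫ t in Icc (0 : ℝ) 1, (J t).im ^ 2 ≤ M ^ 2 := by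
    refine norm_le_of_pair (J := fun t => (J t).im) hJ.mem.im hM0 fun f hf hc hs => ?_
    have h1 := key f hf hc hs
    have h2 : ∫ t in Icc (0 : ℝ) 1, (J t).im * f t =
        (∫ t in Icc (0 : ℝ) 1, J t * (f t : ℂ)).im := by
      have := integral_im (hJint f hf.continuous)
      simp only [RCLike.im_to_complex] at this
      rw [← this]
      refine integral_congr_ae (Eventually.of_forall fun t => ?_)
      simp
    rw [h2]
    exact (Complex.abs_im_le_norm _).trans h1
  have hrei : Integrable (fun t => (J t).re ^ 2) (volume.restrict (Icc (0 : ℝ) 1)) :=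
    hJ.mem.re.integrable_sq
  have himi : Integrable (fun t => (J t).im ^ 2) (volume.restrict (Icc (0 : ℝ) 1)) :=
    hJ.mem.im.integrable_sq
  have hsum : ∫ t in Icc (0 : ℝ) 1, ‖J t‖ ^ 2 =
      (∫ t in Icc (0 : ℝ) 1, (J t).re ^ 2) + ∫ t in Icc (0 : ℝ) 1, (J t).im ^ 2 := by
    rw [← integral_add hrei himi]
    refine integral_congr_ae (Eventually.of_forall fun t => ?_)
    change ‖J t‖ ^ 2 = (J t).re ^ 2 + (J t).im ^ 2
    rw [← Complex.normSq_eq_norm_sq, Complex.normSq_apply]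
    ring
  rw [hsum]
  rw [hM2] at hre him
  linarith

/-- Absence of negative spectrum in the weak coupling regime, for every arc of class `C²`. -/
theorem form_nonneg {a b : ℝ → ℝ} (hab : IsArc a b) : ∃ w₀ : ℝ, 0 < w₀ ∧
    ∀ w : ℝ, w ≤ w₀ → ∀ u g h : ℝ × ℝ → ℂ, InH1 (arc a b) u g h →
      ∀ J : ℝ → ℂ, IsJump a b u g h J → 0 ≤ form a b w g h J := by
  obtain ⟨C, hC, hb⟩ := jump_bound hab
  have hca : Continuous (deriv a) := hab.smooth_fst.continuous_deriv (by norm_num)
  have hcb : Continuous (deriv b) := hab.smooth_snd.continuous_deriv (by norm_num)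
  have hcs : Continuous (fun t => Real.sqrt (deriv a t ^ 2 + deriv b t ^ 2)) := by fun_prop
  obtain ⟨V, hV⟩ := isCompact_Icc.exists_bound_of_continuousOn (s := Icc (0 : ℝ) 1)
    hcs.continuousOn
  have hV0 : 0 ≤ V := (norm_nonneg _).trans (hV 0 (by simp))
  refine ⟨1 / (C * V + 1), by positivity, ?_⟩
  intro w hw u g h hu J hJ
  have hE0 : 0 ≤ energy g h := integral_nonneg fun z => by positivity
  have hB := hb u g h hu.mem hu.mem_fst hu.mem_snd J hJ
  have hJn : Integrable (fun t => ‖J t‖ ^ 2) (volume.restrict (Icc (0 : ℝ) 1)) :=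
    (memLp_two_iff_integrable_sq_norm hJ.mem.1).1 hJ.mem
  set B := ∫ t in Icc (0 : ℝ) 1, ‖J t‖ ^ 2 * Real.sqrt (deriv a t ^ 2 + deriv b t ^ 2) with hBdef
  have hB0 : 0 ≤ B := integral_nonneg fun t => by positivity
  have hBV : B ≤ V * ∫ t in Icc (0 : ℝ) 1, ‖J t‖ ^ 2 := by
    rw [← integral_const_mul]
    refine integral_mono_of_nonneg (Eventually.of_forall fun t => by positivity)
      (hJn.const_mul _) ?_
    filter_upwards [ae_restrict_mem measurableSet_Icc] with t ht
    have h1 := hV t ht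
    rw [Real.norm_eq_abs, abs_of_nonneg (Real.sqrt_nonneg _)] at h1
    rw [mul_comm]
    gcongr
  change 0 ≤ energy g h - w * B
  rcases le_or_gt w 0 with h0 | h0
  · nlinarith
  · have h1 : w * (C * V + 1) ≤ 1 := by
      rw [le_div_iff₀ (by positivity)] at hw
      exact hw
    have h2 : B ≤ V * (C * energy g h) := hBV.trans (by gcongr)
    have h3 : w * B ≤ w * (V * (C * energy g h)) := by gcongr
    have h4 : w * (C * V) ≤ 1 := by nlinarith
    have h5 : w * (V * (C * energy g h)) = w * (C * V) * energy g h := by ring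
    rw [h5] at h3
    nlinarith

end Q62.DP
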